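import Mathlib
import Pool.Agent.H932R3.Proj
import Pool.Agent.H932R5.Alg

set_option autoImplicit false

/-!
# From Taylor coefficients at projective points to affine fat points
-/

namespace Pool.Agent.TH181

open MvPolynomial Pool.Agent.H932R5

section dh

variable {K : Type*} [Field K]

/-- Dehomogenisation with respect to the last variable. -/
noncomputable def dh (K : Type*) [Field K] : MvPolynomial (Fin 3) K →ₐ[K] MvPolynomial (Fin 2) K :=
  aeval ![X 0, X 1, 1]

theorem dh_monomial (s : Fin 3 →₀ ℕ) (a : K) :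
    dh K (monomial s a) = monomial (Finsupp.single 0 (s 0) + Finsupp.single 1 (s 1)) a := by
  rw [dh, aeval_monomial, Finsupp.prod_fintype _ _ (fun i => by simp), Fin.prod_univ_three]
  have h1 : (monomial (Finsupp.single 0 (s 0) + Finsupp.single 1 (s 1)) a :
      MvPolynomial (Fin 2) K) = C a * (X 0 ^ s 0 * X 1 ^ s 1) := by
    rw [X_pow_eq_monomial, X_pow_eq_monomial, monomial_mul, C_mul_monomial, mul_one, mul_one]
  rw [h1]
  show (algebraMap K (MvPolynomial (Fin 2) K)) a * (X 0 ^ s 0 * X 1 ^ s 1 * 1 ^ s 2) = _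
  rw [one_pow, mul_one]
  rfl

theorem sum_of_homog {d : ℕ} {F : MvPolynomial (Fin 3) K} (hF : F.IsHomogeneous d)
    {s : Fin 3 →₀ ℕ} (hs : coeff s F ≠ 0) : s 0 + s 1 + s 2 = d :=
  H932R2.sum_eq_of_homog hF hs

theorem coeff_dh (F : MvPolynomial (Fin 3) K) (α : Fin 2 →₀ ℕ) :
    coeff α (dh K F) = ∑ s ∈ F.support,
      if Finsupp.single 0 (s 0) + Finsupp.single 1 (s 1) = α then coeff s F else 0 := by
  classical
  conv_lhs => rw [F.as_sum]
  rw [map_sum, coeff_sum]
  refine Finset.sum_congr rfl fun s _ => ?_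
  rw [dh_monomial, coeff_monomial]

theorem ss_apply (a b : ℕ) : (Finsupp.single 0 a + Finsupp.single 1 b : Fin 2 →₀ ℕ) 0 = a ∧
    (Finsupp.single 0 a + Finsupp.single 1 b : Fin 2 →₀ ℕ) 1 = b := by
  constructor <;> simp

theorem dh_inj {d : ℕ} {F : MvPolynomial (Fin 3) K} (hF : F.IsHomogeneous d)
    (h : dh K F = 0) : F = 0 := by
  classical
  ext s
  rw [coeff_zero]
  by_contra hs
  have h1 := coeff_dh F (Finsupp.single 0 (s 0) + Finsupp.single 1 (s 1))
  rw [h, coeff_zero, Finset.sum_eq_single s] at h1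
  · rw [if_pos rfl] at h1
    exact hs h1.symm
  · intro t ht hts
    rw [if_neg]
    intro he
    apply hts
    have h2 := sum_of_homog hF (mem_support_iff.1 ht)
    have h3 := sum_of_homog hF hs
    obtain ⟨e1, e2⟩ := ss_apply (t 0) (t 1)
    obtain ⟨e3, e4⟩ := ss_apply (s 0) (s 1)
    rw [he] at e1 e2
    have h4 : s 0 = t 0 := e3.symm.trans e1
    have h5 : s 1 = t 1 := e4.symm.trans e2
    ext j
    fin_cases j
    · exact h4.symm
    · exact h5.symm
    · show t 2 = s 2
      omega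
  · intro hs'
    exact absurd (mem_support_iff.2 hs) hs'

theorem dh_support {d : ℕ} {F : MvPolynomial (Fin 3) K} (hF : F.IsHomogeneous d)
    (α : Fin 2 →₀ ℕ) (h : coeff α (dh K F) ≠ 0) : Finsupp.degree α ≤ d := by
  classical
  rw [coeff_dh] at h
  obtain ⟨s, hs, hs'⟩ := Finset.exists_ne_zero_of_sum_ne_zero h
  have h1 := sum_of_homog hF (mem_support_iff.1 hs)
  by_cases he : Finsupp.single 0 (s 0) + Finsupp.single 1 (s 1) = α
  · obtain ⟨e1, e2⟩ := ss_apply (s 0) (s 1)
    rw [Finsupp.degree_eq_sum, Fin.sum_univ_two, ← he, e1, e2]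
    omega
  · rw [if_neg he] at hs'
    exact absurd rfl hs'

/-- From the vanishing of Taylor coefficients to ideal membership. -/
theorem mem_pt {v : Fin 3 → K} (hv : v 2 ≠ 0) {F : MvPolynomial (Fin 3) K} {d m : ℕ}
    (hF : F.IsHomogeneous d)
    (h : ∀ s : Fin 3 →₀ ℕ, (∑ j, s j) < m →
      coeff s (aeval (fun j : Fin 3 => (X j + C (v j) : MvPolynomial (Fin 3) K)) F) = 0) :
    dh K F ∈ (pt (E := 1) (fun j : Fin 2 => v (Fin.castSucc j) / v 2)) ^ m := by
  obtain ⟨G, hG⟩ : ∃ G, G = aeval (fun j : Fin 3 =>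
    (X j + C (v j) : MvPolynomial (Fin 3) K)) F := ⟨_, rfl⟩
  have hG1 : G ∈ idealOfVars (Fin 3) K ^ m := by
    rw [mem_pow_idealOfVars_iff']
    intro s hs
    rw [hG]
    exact h s (by rwa [Finsupp.degree_eq_sum] at hs)
  let g : Fin 3 → MvPolynomial (Fin 2) K := ![X 0, X 1, 1]
  let φ : MvPolynomial (Fin 3) K →ₐ[K] MvPolynomial (Fin 2) K :=
    aeval ![C (v 2) * X 0 - C (v 0), C (v 2) * X 1 - C (v 1), 0]
  have hφ : φ G = C (v 2) ^ d * dh K F := by
    have hcomp : φ.comp (aeval (fun j : Fin 3 =>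
        (X j + C (v j) : MvPolynomial (Fin 3) K))) = aeval (fun j => C (v 2) * g j) := by
      refine algHom_ext fun j => ?_
      rw [AlgHom.comp_apply, aeval_X, aeval_X, map_add]
      have hC : ∀ a : K, φ (C a) = C a := fun a => φ.commutes a
      rw [hC]
      fin_cases j
      · show φ (X 0) + C (v 0) = C (v 2) * X 0
        rw [show φ (X 0) = C (v 2) * X 0 - C (v 0) from aeval_X _ _]
        ring
      · show φ (X 1) + C (v 1) = C (v 2) * X 1
        rw [show φ (X 1) = C (v 2) * X 1 - C (v 1) from aeval_X _ _]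
        ring
      · show φ (X 2) + C (v 2) = C (v 2) * 1
        rw [show φ (X 2) = 0 from aeval_X _ _]
        ring
    have h4 := AlgHom.congr_fun hcomp F
    rw [AlgHom.comp_apply, ← hG] at h4
    rw [h4, H932R3.aeval_mul_homog hF]
    rfl
  have h1 := Ideal.mem_map_of_mem φ hG1
  rw [Ideal.map_pow, hφ] at h1
  have h2 : Ideal.map φ (idealOfVars (Fin 3) K) ≤
      pt (E := 1) (fun j : Fin 2 => v (Fin.castSucc j) / v 2) := by
    unfold idealOfVars
    rw [Ideal.map_span, Ideal.span_le]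
    rintro _ ⟨_, ⟨j, rfl⟩, rfl⟩
    have hm : ∀ j : Fin 2, (C (v 2) * X j - C (v (Fin.castSucc j)) : MvPolynomial (Fin 2) K) ∈
        pt (E := 1) (fun j : Fin 2 => v (Fin.castSucc j) / v 2) := by
      intro j
      have e : (C (v 2) * X j - C (v (Fin.castSucc j)) : MvPolynomial (Fin 2) K) =
          C (v 2) * (X j - C (v (Fin.castSucc j) / v 2)) := by
        rw [mul_sub, ← C_mul, mul_div_cancel₀ _ hv]
      rw [e]
      exact Ideal.mul_mem_left _ _ (Ideal.subset_span ⟨j, rfl⟩)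
    fin_cases j
    · show φ (X 0) ∈ _
      rw [show φ (X 0) = C (v 2) * X 0 - C (v 0) from aeval_X _ _]
      exact hm 0
    · show φ (X 1) ∈ _
      rw [show φ (X 1) = C (v 2) * X 1 - C (v 1) from aeval_X _ _]
      exact hm 1
    · show φ (X 2) ∈ _
      rw [show φ (X 2) = 0 from aeval_X _ _]
      exact Submodule.zero_mem _
  have h3 := Ideal.pow_right_mono h2 m h1
  have h4 : dh K F = C ((v 2)⁻¹ ^ d) * (C (v 2) ^ d * dh K F) := by
    rw [← C_pow, ← mul_assoc, ← C_mul, ← mul_pow, inv_mul_cancel₀ hv, one_pow, C_1, one_mul]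
  rw [h4]
  exact Ideal.mul_mem_left _ _ h3

end dh

end Pool.Agent.TH181
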