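import Mathlib
import Pool.Agent.W610.Plane
import Pool.Agent.H932R3.Nagata
import Pool.Agent.TH181.NagA

set_option autoImplicit false

/-!
# Nagata's inequality at very general points of the complex plane, exponential precision
-/

namespace Pool.Agent.TH181

open MvPolynomial Pool.Agent.H932R5

theorem countable_bot : Countable (⊥ : Subfield ℂ) := by
  rw [Subfield.bot_eq_of_charZero]
  have h : Function.Surjective (fun q : ℚ =>
      (⟨algebraMap ℚ ℂ q, q, rfl⟩ : ↥(algebraMap ℚ ℂ).fieldRange)) := by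
    rintro ⟨x, q, hq⟩
    exact ⟨q, Subtype.ext hq⟩
  exact h.countable

theorem countable_mv (n : ℕ) : Countable (MvPolynomial (Fin n × Fin 2) (⊥ : Subfield ℂ)) := by
  have h := countable_bot
  rw [← Cardinal.mk_le_aleph0_iff]
  refine MvPolynomial.cardinalMk_le_max.trans ?_
  refine max_le (max_le ?_ ?_) le_rfl
  · exact Cardinal.mk_le_aleph0_iff.2 h
  · exact Cardinal.mk_le_aleph0_iff.2 inferInstance

/-- Countably many polynomial conditions that force genericity. -/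
theorem exists_generic (n : ℕ) :
    ∃ G : ℕ → MvPolynomial (Fin n × Fin 3) ℂ, (∀ j, G j ≠ 0) ∧
      ∀ v : Fin n → Fin 3 → ℂ, (∀ j, eval (fun q : Fin n × Fin 3 => v q.1 q.2) (G j) ≠ 0) →
        (∀ i, v i 2 ≠ 0) ∧ AlgebraicIndependent (⊥ : Subfield ℂ)
          (fun q : Fin n × Fin 2 => v q.1 (Fin.castSucc q.2) / v q.1 2) := by
  classical
  have hc := countable_mv n
  obtain ⟨e, he⟩ := exists_surjective_nat (MvPolynomial (Fin n × Fin 2) (⊥ : Subfield ℂ))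
  have hinj : Function.Injective (map (σ := Fin n × Fin 2) (algebraMap (⊥ : Subfield ℂ) ℂ)) :=
    map_injective _ (algebraMap (⊥ : Subfield ℂ) ℂ).injective
  have h1 : ∀ j : ℕ, ∃ G : MvPolynomial (Fin n × Fin 3) ℂ, G ≠ 0 ∧
      ∀ v : Fin n → Fin 3 → ℂ, eval (fun q : Fin n × Fin 3 => v q.1 q.2) G ≠ 0 → e j ≠ 0 →
        (∀ i, v i 2 ≠ 0) ∧
        eval (fun q : Fin n × Fin 2 => v q.1 (Fin.castSucc q.2) / v q.1 2)
          (map (algebraMap (⊥ : Subfield ℂ) ℂ) (e j)) ≠ 0 := by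
    intro j
    by_cases h : e j = 0
    · exact ⟨1, one_ne_zero, fun v _ h2 => absurd h h2⟩
    · obtain ⟨G, hG, hG'⟩ := H932R3.exists_homogenise
        (map (algebraMap (⊥ : Subfield ℂ) ℂ) (e j)) (fun h0 => h (hinj (by rw [h0, map_zero])))
      exact ⟨G, hG, fun v hv _ => hG' v hv⟩
  choose G hG hG' using h1
  refine ⟨G, hG, fun v hv => ⟨?_, ?_⟩⟩
  · obtain ⟨j, hj⟩ := he 1
    exact (hG' j v (hv j) (by rw [hj]; exact one_ne_zero)).1
  · rw [algebraicIndependent_iff]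
    intro p hp
    by_contra hp0
    obtain ⟨j, hj⟩ := he p
    refine (hG' j v (hv j) (by rw [hj]; exact hp0)).2 ?_
    rw [hj, eval_map, ← hp]
    rfl

/-- The inequality with exponential precision. -/
theorem nag_le {n : ℕ} (hn : (2 : ℝ) ^ 1000 ≤ n) {v : Fin n → Fin 3 → ℂ}
    (hv : ∀ i, v i 2 ≠ 0) (hP : AlgebraicIndependent (⊥ : Subfield ℂ)
      (fun q : Fin n × Fin 2 => v q.1 (Fin.castSucc q.2) / v q.1 2))
    {d : ℕ} {m : Fin n → ℕ} {F : MvPolynomial (Fin 3) ℂ} (hF0 : F ≠ 0) (hF : F.IsHomogeneous d)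
    (hm : ∀ i : Fin n, ∀ s : Fin 3 →₀ ℕ, (∑ j, s j) < m i →
      coeff s (aeval (fun j : Fin 3 => (X j + C (v i j) : MvPolynomial (Fin 3) ℂ)) F) = 0) :
    ((∑ i, m i : ℕ) : ℝ) ≤
      (1 + Real.exp (-((n : ℝ) ^ (1 / 10 : ℝ))) / n) * (Real.sqrt n * d) := by
  by_contra hcon
  push Not at hcon
  have h1 := W610.emptyE hn (P := fun i (j : Fin 2) => v i (Fin.castSucc j) / v i 2) hP hcon
  have h2 := h1 (dh ℂ F) ?_ ?_
  · exact hF0 (dh_inj hF h2)
  · rw [mem_Z]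
    exact fun i => mem_pt (hv i) hF (hm i)
  · exact fun α hα => dh_support hF α hα

/-- The integrality argument. -/
theorem nag_num {n M d : ℕ} {x X : ℝ} (hn : 4 ≤ n) (hsq : ∀ c : ℕ, n ≠ c * c) (hd : 0 < d)
    (hX : x = Real.exp (-X)) (hX0 : 0 ≤ X)
    (h1 : (d : ℝ) * Real.sqrt n ≤ M) (h2 : (M : ℝ) ≤ (1 + x / n) * (Real.sqrt n * d)) :
    Real.exp (X / 2) < M := by
  have hnR : (4 : ℝ) ≤ n := by exact_mod_cast hn
  have hn0 : (0 : ℝ) < n := by linarith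
  have hss : Real.sqrt n * Real.sqrt n = n := Real.mul_self_sqrt hn0.le
  have hx0 : 0 < x := by rw [hX]; exact Real.exp_pos _
  have hx1 : x ≤ 1 := by
    rw [hX, Real.exp_le_one_iff]
    linarith
  have hd0 : (0 : ℝ) < d := by exact_mod_cast hd
  have hM0 : (0 : ℝ) ≤ M := Nat.cast_nonneg M
  have h3 : n * d ^ 2 ≤ M ^ 2 := by
    have h4 := pow_le_pow_left₀ (by positivity) h1 2
    rw [mul_pow, pow_two (Real.sqrt (n : ℝ)), hss] at h4
    have h5 : d ^ 2 * n ≤ M ^ 2 := by exact_mod_cast h4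
    rwa [mul_comm] at h5
  have h4 : n * d ^ 2 ≠ M ^ 2 := by
    intro h
    obtain ⟨c, hc, _⟩ := H932R3.isSquare_of_mul_sq hd h
    exact hsq c hc
  have h5 : n * d ^ 2 + 1 ≤ M ^ 2 := lt_of_le_of_ne h3 h4
  have h6 : (n : ℝ) * (d : ℝ) ^ 2 + 1 ≤ (M : ℝ) ^ 2 := by exact_mod_cast h5
  have h7 : (M : ℝ) ^ 2 ≤ (1 + x / n) ^ 2 * (n * (d : ℝ) ^ 2) := by
    have h8 := pow_le_pow_left₀ hM0 h2 2
    calc (M : ℝ) ^ 2 ≤ ((1 + x / n) * (Real.sqrt n * d)) ^ 2 := h8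
      _ = (1 + x / n) ^ 2 * ((Real.sqrt n * Real.sqrt n) * (d : ℝ) ^ 2) := by ring
      _ = _ := by rw [hss]
  have h8 : (1 + x / n) ^ 2 * (n * (d : ℝ) ^ 2) ≤ n * (d : ℝ) ^ 2 + 3 * x * (d : ℝ) ^ 2 := by
    have e : (1 + x / n) ^ 2 * (n * (d : ℝ) ^ 2) =
        n * (d : ℝ) ^ 2 + (2 * x + x * (x / n)) * (d : ℝ) ^ 2 := by
      field_simp
      ring
    rw [e]
    have h9 : x * (x / n) ≤ x := by
      refine mul_le_of_le_one_right hx0.le ?_
      rw [div_le_one hn0]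
      linarith
    have h10 : (2 * x + x * (x / n)) * (d : ℝ) ^ 2 ≤ 3 * x * (d : ℝ) ^ 2 :=
      mul_le_mul_of_nonneg_right (by linarith) (by positivity)
    linarith
  have h9 : 1 ≤ 3 * x * (d : ℝ) ^ 2 := by linarith
  have hexp : Real.exp X * x = 1 := by
    rw [hX, ← Real.exp_add]
    simp
  have h10 : Real.exp X ≤ 3 * (d : ℝ) ^ 2 := by
    calc Real.exp X = Real.exp X * 1 := (mul_one _).symm
      _ ≤ Real.exp X * (3 * x * (d : ℝ) ^ 2) :=
        mul_le_mul_of_nonneg_left h9 (Real.exp_pos X).le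
      _ = (Real.exp X * x) * (3 * (d : ℝ) ^ 2) := by ring
      _ = 3 * (d : ℝ) ^ 2 := by rw [hexp, one_mul]
  have h11 : Real.exp X < (M : ℝ) ^ 2 := by
    have h12 : 3 * (d : ℝ) ^ 2 ≤ n * (d : ℝ) ^ 2 :=
      mul_le_mul_of_nonneg_right (by linarith) (by positivity)
    linarith
  have h12 : Real.exp (X / 2) ^ 2 = Real.exp X := by
    rw [← Real.exp_nat_mul]
    congr 1
    push_cast
    ring
  rw [← h12] at h11
  exact lt_of_pow_lt_pow_left₀ 2 hM0 h11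

end Pool.Agent.TH181
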